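import Mathlib
import Pool.Agent.Helper579.Recovery

set_option autoImplicit false

namespace Pool.Agent.Results.MP_fa1f9f_an.LossOne

open MeasureTheory Finset
open scoped ENNReal NNReal

/-- `B(D)`: the Banach space of bounded real functions on `D` with the supremum norm. -/
abbrev BD (D : Type) : Type := lp (fun _ : D => ℝ) ∞

/-- The information class of function values `f ↦ f x`. -/
def std (D : Type) : Set (BD D → ℝ) := {L | ∃ x : D, ∀ f : BD D, L f = f x}

/-- The information class of all bounded linear functionals on `B(D)`. -/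
def lin (D : Type) : Set (BD D → ℝ) := {L | ∃ φ : BD D →L[ℝ] ℝ, ∀ f : BD D, L f = φ f}

/-- `IsAlg Λ n A`: `A` is a deterministic adaptive algorithm using `n` pieces of information
from `Λ`. With `n = 0` it is constant; with `n + 1` there is a first functional `L ∈ Λ` and, for
every possible observed value `v`, an algorithm `A' v` using `n` pieces of information, and
`A f = A' (L f) f`. -/
def IsAlg {X Y : Type} (Λ : Set (X → ℝ)) : ℕ → (X → Y) → Prop
  | 0, A => ∃ c, ∀ x, A x = c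
  | n + 1, A => ∃ L ∈ Λ, ∃ A' : ℝ → X → Y, (∀ v, IsAlg Λ n (A' v)) ∧ ∀ x, A x = A' (L x) x

/-- The set of errors `sup_{f ∈ F} E ‖f - A^ω f‖` of randomized algorithms using `n` pieces of
information from `Λ` for uniform approximation on `F`. -/
def ranErrors {D : Type} (F : Set (BD D)) (Λ : Set (BD D → ℝ)) (n : ℕ) : Set ℝ≥0∞ :=
  {e | ∃ (Ω : Type) (_ : MeasurableSpace Ω) (μ : Measure Ω) (_ : IsProbabilityMeasure μ)
      (A : Ω → BD D → BD D), (∀ ω, IsAlg Λ n (A ω)) ∧
      (∀ f ∈ F, Measurable fun ω => ‖f - A ω f‖) ∧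
      e = ⨆ f ∈ F, ∫⁻ ω, ENNReal.ofReal ‖f - A ω f‖ ∂μ}

/-- The `n`-th minimal randomized error for uniform approximation. -/
noncomputable def eRan {D : Type} (F : Set (BD D)) (Λ : Set (BD D → ℝ)) (n : ℕ) : ℝ≥0∞ :=
  sInf (ranErrors F Λ n)

/-- The polynomial rate of convergence `sup {α ≥ 0 : sup_{n ≥ 1} n^α a_n < ∞}`. -/
noncomputable def rate (a : ℕ → ℝ≥0∞) : ℝ≥0∞ :=
  sSup {r : ℝ≥0∞ | ∃ α : ℝ≥0, r = α ∧ ⨆ (n : ℕ) (_ : 1 ≤ n), (n : ℝ≥0∞) ^ (α : ℝ) * a n < ∞}

/-! ### The class -/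

/-- iterated binary logarithm -/
def ll (i : ℕ) : ℕ := Nat.log 2 (Nat.log 2 i)

/-- the weighted `l_1` ball -/
def F : Set (BD ℕ) := {f | ∀ s : Finset ℕ, ∑ i ∈ s, 2 ^ ll i * |f i| ≤ 1}

lemma convex_F : Convex ℝ F := by
  intro f hf g hg a b ha hb hab s
  have h1 : ∀ i, (a • f + b • g : BD ℕ) i = a * f i + b * g i := fun i => rfl
  calc ∑ i ∈ s, 2 ^ ll i * |(a • f + b • g : BD ℕ) i|
      ≤ ∑ i ∈ s, (a * (2 ^ ll i * |f i|) + b * (2 ^ ll i * |g i|)) := by
        apply sum_le_sum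
        intro i _
        rw [h1]
        have h2 : |a * f i + b * g i| ≤ a * |f i| + b * |g i| := by
          refine (abs_add_le _ _).trans ?_
          rw [abs_mul, abs_mul, abs_of_nonneg ha, abs_of_nonneg hb]
        have h3 : (0 : ℝ) ≤ 2 ^ ll i := by positivity
        nlinarith
    _ = a * ∑ i ∈ s, 2 ^ ll i * |f i| + b * ∑ i ∈ s, 2 ^ ll i * |g i| := by
        rw [sum_add_distrib, mul_sum, mul_sum]
    _ ≤ a * 1 + b * 1 := add_le_add (mul_le_mul_of_nonneg_left (hf s) ha)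
        (mul_le_mul_of_nonneg_left (hg s) hb)
    _ = 1 := by rw [mul_one, mul_one, hab]

lemma symm_F : ∀ f ∈ F, -f ∈ F := by
  intro f hf s
  have h1 : ∀ i, (-f : BD ℕ) i = - f i := fun i => rfl
  simp only [h1, abs_neg]
  exact hf s

lemma apply_le {f : BD ℕ} (hf : f ∈ F) (i : ℕ) : 2 ^ ll i * |f i| ≤ 1 := by
  have := hf {i}
  simpa using this

lemma norm_le_one {f : BD ℕ} (hf : f ∈ F) : ‖f‖ ≤ 1 := by
  apply lp.norm_le_of_forall_le zero_le_one
  intro i
  rw [Real.norm_eq_abs]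
  have h1 := apply_le hf i
  have h2 : (1 : ℝ) ≤ 2 ^ ll i := one_le_pow₀ (by norm_num)
  have h3 := abs_nonneg (f i)
  nlinarith

/-! ### Lower bound for function values -/

lemma IsAlg.nodes {D : Type} {Y : Type} {n : ℕ} {A : BD D → Y} (hA : IsAlg (std D) n A) :
    ∃ V : Finset D, V.card ≤ n ∧ ∀ f : BD D, (∀ x ∈ V, f x = 0) → A f = A 0 := by
  classical
  induction n generalizing A with
  | zero =>
    obtain ⟨c, hc⟩ := hA
    exact ⟨∅, by simp, fun f _ => by rw [hc, hc]⟩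
  | succ n ih =>
    obtain ⟨L, ⟨x, hx⟩, A', hA', h⟩ := hA
    obtain ⟨V, hV, hV'⟩ := ih (hA' 0)
    refine ⟨insert x V, (card_insert_le _ _).trans (by omega), fun f hf => ?_⟩
    have h0 : L f = 0 := by rw [hx]; exact hf x (mem_insert_self _ _)
    have h1 : L 0 = 0 := by rw [hx]; rfl
    rw [h, h, h0, h1]
    exact hV' f (fun y hy => hf y (mem_insert_of_mem hy))

/-- scaled unit vectors -/
noncomputable def vec (c : ℝ) (j : ℕ) : BD ℕ := lp.single ∞ j c

lemma vec_apply (c : ℝ) (j i : ℕ) : vec c j i = if i = j then c else 0 := by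
  unfold vec
  rw [lp.single_apply]
  by_cases h : i = j
  · subst h; simp
  · simp [h]

lemma vec_mem {c : ℝ} {j : ℕ} (h : 2 ^ ll j * |c| ≤ 1) : vec c j ∈ F := by
  intro s
  by_cases hj : j ∈ s
  · rw [sum_eq_single_of_mem j hj]
    · rw [vec_apply, if_pos rfl]; exact h
    · intro i _ hij
      rw [vec_apply, if_neg hij]; simp
  · rw [sum_eq_zero]
    · exact zero_le_one
    · intro i hi
      have hij : i ≠ j := fun h => hj (h ▸ hi)
      rw [vec_apply, if_neg hij]; simp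

lemma norm_vec (c : ℝ) (j : ℕ) : ‖vec c j‖ = |c| := by
  unfold vec
  rw [lp.norm_single (by simp)]
  rfl

/-- lower bound for randomized algorithms using function values -/
lemma eRan_std_ge {n L : ℕ} (hn : 1 ≤ n) (hL : ∀ j < 2 * n, ll j ≤ L) :
    ENNReal.ofReal (1 / 2 ^ (L + 1)) ≤ eRan F (std ℕ) n := by
  apply le_sInf
  rintro e ⟨Ω, _, μ, hμ, A, hA, hmeas, rfl⟩
  set c : ℝ := 1 / 2 ^ L with hc
  have hcpos : 0 < c := by positivity
  -- test functions
  have hmem : ∀ (σ : Bool) (j : ℕ), j < 2 * n → vec (if σ then c else -c) j ∈ F := by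
    intro σ j hj
    apply vec_mem
    have h1 : |if σ then c else -c| = c := by
      split_ifs
      · exact abs_of_pos hcpos
      · rw [abs_neg]; exact abs_of_pos hcpos
    rw [h1, hc, mul_one_div, div_le_one (by positivity)]
    exact pow_le_pow_right₀ (by norm_num) (hL j hj)
  set E : ℝ≥0∞ := ⨆ f ∈ F, ∫⁻ ω, ENNReal.ofReal ‖f - A ω f‖ ∂μ with hE
  have hle : ∀ f ∈ F, ∫⁻ ω, ENNReal.ofReal ‖f - A ω f‖ ∂μ ≤ E := fun f hf =>
    le_iSup₂ (f := fun f (_ : f ∈ F) => ∫⁻ ω, ENNReal.ofReal ‖f - A ω f‖ ∂μ) f hf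
  -- pointwise lower bound
  have hpt : ∀ ω, ENNReal.ofReal (2 * c * n) ≤ ∑ j ∈ range (2 * n),
      (ENNReal.ofReal ‖vec c j - A ω (vec c j)‖ + ENNReal.ofReal ‖vec (-c) j - A ω (vec (-c) j)‖) := by
    intro ω
    obtain ⟨V, hV, hV'⟩ := (hA ω).nodes
    have h1 : n ≤ ((range (2 * n)) \ V).card := by
      have := le_card_sdiff V (range (2 * n))
      rw [card_range] at this
      omega
    calc ENNReal.ofReal (2 * c * n) = (n : ℝ≥0∞) * ENNReal.ofReal (2 * c) := by
          rw [mul_comm (2 * c), ENNReal.ofReal_mul (by positivity), ENNReal.ofReal_natCast]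
      _ ≤ (((range (2 * n)) \ V).card : ℝ≥0∞) * ENNReal.ofReal (2 * c) := by
          gcongr
      _ = ∑ _j ∈ (range (2 * n)) \ V, ENNReal.ofReal (2 * c) := by
          rw [sum_const, nsmul_eq_mul]
      _ ≤ ∑ j ∈ (range (2 * n)) \ V,
        (ENNReal.ofReal ‖vec c j - A ω (vec c j)‖
          + ENNReal.ofReal ‖vec (-c) j - A ω (vec (-c) j)‖) := by
          apply sum_le_sum
          intro j hj
          have hjV : j ∉ V := (mem_sdiff.mp hj).2
          have e1 : A ω (vec c j) = A ω 0 := hV' _ (fun x hx => by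
            rw [vec_apply, if_neg]; rintro rfl; exact hjV hx)
          have e2 : A ω (vec (-c) j) = A ω 0 := hV' _ (fun x hx => by
            rw [vec_apply, if_neg]; rintro rfl; exact hjV hx)
          rw [e1, e2, ← ENNReal.ofReal_add (norm_nonneg _) (norm_nonneg _)]
          apply ENNReal.ofReal_le_ofReal
          have h2 : vec (-c) j = - vec c j := by
            ext i
            show vec (-c) j i = - (vec c j i)
            rw [vec_apply, vec_apply]
            split_ifs <;> simp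
          have h3 : ‖(vec c j - A ω 0) - (vec (-c) j - A ω 0)‖ = 2 * c := by
            have : (vec c j - A ω 0) - (vec (-c) j - A ω 0) = (2 : ℝ) • vec c j := by
              rw [h2, two_smul]; abel
            rw [this, norm_smul, norm_vec, abs_of_pos hcpos]
            norm_num
          rw [← h3]
          exact norm_sub_le _ _
      _ ≤ _ := sum_le_sum_of_subset sdiff_subset
  -- integrate
  have hI : ENNReal.ofReal (2 * c * n) ≤ (2 * n : ℕ) * (E + E) := by
    calc ENNReal.ofReal (2 * c * n) = ∫⁻ _ω, ENNReal.ofReal (2 * c * n) ∂μ := by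
          rw [lintegral_const, measure_univ, mul_one]
      _ ≤ ∫⁻ ω, ∑ j ∈ range (2 * n),
      (ENNReal.ofReal ‖vec c j - A ω (vec c j)‖
        + ENNReal.ofReal ‖vec (-c) j - A ω (vec (-c) j)‖) ∂μ := lintegral_mono hpt
      _ = ∑ j ∈ range (2 * n), ∫⁻ ω, (ENNReal.ofReal ‖vec c j - A ω (vec c j)‖
        + ENNReal.ofReal ‖vec (-c) j - A ω (vec (-c) j)‖) ∂μ := by
          apply lintegral_finsetSum
          intro j hj
          rw [mem_range] at hj
          exact ((hmeas _ (by simpa using hmem true j hj)).ennreal_ofReal).add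
            ((hmeas _ (by simpa using hmem false j hj)).ennreal_ofReal)
      _ ≤ ∑ _j ∈ range (2 * n), (E + E) := by
          apply sum_le_sum
          intro j hj
          rw [mem_range] at hj
          rw [lintegral_add_left ((hmeas _ (by simpa using hmem true j hj)).ennreal_ofReal)]
          exact add_le_add (hle _ (by simpa using hmem true j hj))
            (hle _ (by simpa using hmem false j hj))
      _ = (2 * n : ℕ) * (E + E) := by
          rw [sum_const, card_range, nsmul_eq_mul]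
  have hnpos : (0 : ℝ) < n := by exact_mod_cast hn
  have h5 : ENNReal.ofReal (2 * c * n) = ((4 * n : ℕ) : ℝ≥0∞) * ENNReal.ofReal (1 / 2 ^ (L + 1)) := by
    rw [← ENNReal.ofReal_natCast, ← ENNReal.ofReal_mul (by positivity)]
    congr 1
    rw [hc, pow_succ]
    push_cast
    field_simp
    ring
  have h6 : ((2 * n : ℕ) : ℝ≥0∞) * (E + E) = ((4 * n : ℕ) : ℝ≥0∞) * E := by
    push_cast; ring
  rw [h5, h6] at hI
  have h7 : ((4 * n : ℕ) : ℝ≥0∞) ≠ 0 := by
    simp; omega
  exact (ENNReal.mul_le_mul_iff_right h7 (ENNReal.natCast_ne_top _)).mp hI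

/-- rate for function values is zero -/
lemma rate_std : rate (fun n => eRan F (std ℕ) n) = 0 := by
  rw [rate, sSup_eq_bot.mpr]
  · rfl
  rintro _ ⟨α, rfl, hα⟩
  by_contra hne
  have hαpos : (0 : ℝ) < α := by
    have : α ≠ 0 := fun h => hne (by rw [h]; rfl)
    exact_mod_cast pos_iff_ne_zero.mpr this
  set C := ⨆ (n : ℕ) (_ : 1 ≤ n), (n : ℝ≥0∞) ^ (α : ℝ) * eRan F (std ℕ) n with hC
  -- use n = 2^j
  have h1 : ∀ j : ℕ, ENNReal.ofReal (((2 : ℝ) ^ (α : ℝ)) ^ j / (4 * ((j : ℝ) + 2))) ≤ C := by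
    intro j
    have hn : 1 ≤ 2 ^ j := Nat.one_le_two_pow
    have hle : ((2 ^ j : ℕ) : ℝ≥0∞) ^ (α : ℝ) * eRan F (std ℕ) (2 ^ j) ≤ C :=
      le_iSup₂ (f := fun (n : ℕ) (_ : 1 ≤ n) => (n : ℝ≥0∞) ^ (α : ℝ) * eRan F (std ℕ) n)
        (2 ^ j) hn
    refine le_trans ?_ hle
    have hL : ∀ i < 2 * 2 ^ j, ll i ≤ Nat.log 2 (j + 2) := by
      intro i hi
      apply Nat.log_mono_right
      have : i ≤ 2 ^ (j + 1) := by rw [pow_succ]; omega
      calc Nat.log 2 i ≤ Nat.log 2 (2 ^ (j + 1)) := Nat.log_mono_right this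
        _ = j + 1 := Nat.log_pow (by norm_num) _
        _ ≤ j + 2 := by omega
    have h2 := eRan_std_ge hn hL
    have h3 : 1 / (4 * ((j : ℝ) + 2)) ≤ 1 / 2 ^ (Nat.log 2 (j + 2) + 1) := by
      apply one_div_le_one_div_of_le (by positivity)
      have : (2 : ℝ) ^ (Nat.log 2 (j + 2)) ≤ (j : ℝ) + 2 := by
        have := Nat.pow_log_le_self 2 (x := j + 2) (by omega)
        exact_mod_cast this
      rw [pow_succ]
      have : (0 : ℝ) ≤ j := by positivity
      linarith
    calc ENNReal.ofReal (((2 : ℝ) ^ (α : ℝ)) ^ j / (4 * ((j : ℝ) + 2)))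
        = ENNReal.ofReal (((2 : ℝ) ^ (α : ℝ)) ^ j) * ENNReal.ofReal (1 / (4 * ((j : ℝ) + 2))) := by
          rw [← ENNReal.ofReal_mul (by positivity)]
          congr 1; ring
      _ ≤ ((2 ^ j : ℕ) : ℝ≥0∞) ^ (α : ℝ) * eRan F (std ℕ) (2 ^ j) := by
          apply mul_le_mul'
          · rw [← ENNReal.ofReal_natCast, ENNReal.ofReal_rpow_of_pos (by positivity)]
            apply ENNReal.ofReal_le_ofReal
            push_cast
            rw [← Real.rpow_natCast, ← Real.rpow_natCast, ← Real.rpow_mul (by norm_num),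
              ← Real.rpow_mul (by norm_num), mul_comm]
          · exact (ENNReal.ofReal_le_ofReal h3).trans h2
  -- contradiction
  have hbase : (1 : ℝ) < (2 : ℝ) ^ (α : ℝ) := Real.one_lt_rpow (by norm_num) hαpos
  have h4 := tendsto_pow_const_div_const_pow_of_one_lt 1 hbase
  have h5 : ∀ j : ℕ, ((2 : ℝ) ^ (α : ℝ)) ^ j / (4 * ((j : ℝ) + 2)) ≤ C.toReal := by
    intro j
    rw [← ENNReal.ofReal_le_iff_le_toReal hα.ne]
    exact h1 j
  have hC0 : 0 < C.toReal := lt_of_lt_of_le (by positivity) (h5 0)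
  have h6 : ∀ᶠ j : ℕ in Filter.atTop, (j : ℝ) ^ 1 / ((2 : ℝ) ^ (α : ℝ)) ^ j < 1 / (12 * C.toReal) :=
    h4.eventually (gt_mem_nhds (by positivity))
  obtain ⟨j, hj1, hj2⟩ := (h6.and (Filter.eventually_ge_atTop 1)).exists
  have h7 := h5 j
  have hj3 : (1 : ℝ) ≤ j := by exact_mod_cast hj2
  rw [div_lt_div_iff₀ (by positivity) (by positivity), pow_one, one_mul] at hj1
  rw [div_le_iff₀ (by positivity)] at h7
  nlinarith

/-! ### Upper bound for linear information -/

lemma isAlg_of {X Y : Type} {Λ : Set (X → ℝ)} {n : ℕ} {A : X → Y}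
    (h : Pool.Agent.Helper579.Recovery.IsAlg Λ n A) : IsAlg Λ n A := by
  induction n generalizing A with
  | zero => exact h
  | succ n ih =>
    obtain ⟨L, hL, A', hA', h⟩ := h
    exact ⟨L, hL, A', fun v => ih (hA' v), h⟩

lemma IsAlg.succ {X Y : Type} {Λ : Set (X → ℝ)} {n : ℕ} {A : X → Y} (hA : IsAlg Λ n A)
    (hne : Λ.Nonempty) : IsAlg Λ (n + 1) A := by
  obtain ⟨L, hL⟩ := hne
  exact ⟨L, hL, fun _ => A, fun _ => hA, fun _ => rfl⟩

lemma lin_nonempty : (lin ℕ).Nonempty := ⟨fun _ => 0, 0, fun _ => rfl⟩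

lemma eRan_anti : Antitone (eRan F (lin ℕ)) := by
  apply antitone_nat_of_succ_le
  intro n
  apply sInf_le_sInf
  rintro e ⟨Ω, m, μ, hμ, A, hA, hmeas, rfl⟩
  exact ⟨Ω, m, μ, hμ, A, fun ω => (hA ω).succ lin_nonempty, hmeas, rfl⟩

/-- coordinates -/
noncomputable def coords (f : BD ℕ) (i : ℕ) : ℝ := 2 ^ ll i * f i

lemma coords_lin (s : Finset ℕ) (c : ℕ → ℝ) :
    (fun f : BD ℕ => ∑ i ∈ s, c i * coords f i) ∈ lin ℕ := by
  refine ⟨∑ i ∈ s, (c i * 2 ^ ll i) • lp.evalCLM ℝ (fun _ : ℕ => ℝ) ∞ i, ?_⟩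
  intro f
  rw [_root_.sum_apply]
  apply sum_congr rfl
  intro i _
  show c i * coords f i = (c i * 2 ^ ll i) * f i
  unfold coords
  ring

/-- a finitely supported sequence as an element of `B(ℕ)` -/
noncomputable def toBD (z : ℕ → ℝ) : BD ℕ := by
  classical
  exact if h : Memℓp z ∞ then ⟨z, h⟩ else 0

lemma toBD_apply {z : ℕ → ℝ} {C : ℝ} (h : ∀ i, |z i| ≤ C) (i : ℕ) : toBD z i = z i := by
  have hz : Memℓp z ∞ := memℓp_infty ⟨C, by rintro _ ⟨i, rfl⟩; exact h i⟩
  unfold toBD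
  rw [dif_pos hz]

open Pool.Agent.Helper579.Recovery in
/-- the randomized algorithm -/
noncomputable def alg (M B T r : ℕ) (ω : Fin r → Fin M → Fin (q B T)) (f : BD ℕ) : BD ℕ :=
  toBD (fun i => out M B T r ω (coords f) i / 2 ^ ll i)

open Pool.Agent.Helper579.Recovery Classical in
lemma alg_error {M B T r : ℕ} (hM : M = R T) {ω : Fin r → Fin M → Fin (q B T)}
    {f : BD ℕ} (hf : f ∈ F) {τ : ℝ} (hτ : 0 < τ) :
    ‖f - alg M B T r ω f‖ ≤ 1 / 2 ^ T + τ +
      ∑ j ∈ (range M).filter (fun j => τ < |coords f j|),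
        (if Found M B T r ω (coords f) j then (0 : ℝ) else 1) * |coords f j| := by
  set y := coords f with hy
  set Sg := ∑ j ∈ (range M).filter (fun j => τ < |y j|),
        (if Found M B T r ω y j then (0 : ℝ) else 1) * |y j| with hSg
  have hSg0 : 0 ≤ Sg := by
    apply sum_nonneg
    intro j _
    split_ifs <;> positivity
  have hyf : ∀ i, y i = 2 ^ ll i * f i := fun i => rfl
  have hy1 : ∀ i, |y i| ≤ 1 := by
    intro i
    rw [hyf, abs_mul, abs_of_pos (by positivity : (0 : ℝ) < 2 ^ ll i)]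
    exact apply_le hf i
  have hz : ∀ i, |out M B T r ω y i / 2 ^ ll i| ≤ 1 := by
    intro i
    rw [out_eq, abs_div, abs_of_pos (by positivity : (0 : ℝ) < 2 ^ ll i),
      div_le_one (by positivity)]
    have h2 : (1 : ℝ) ≤ 2 ^ ll i := one_le_pow₀ (by norm_num)
    split_ifs
    · exact (hy1 i).trans h2
    · rw [abs_zero]; positivity
  apply lp.norm_le_of_forall_le (by positivity)
  intro i
  have h1 : (f - alg M B T r ω f : BD ℕ) i = f i - out M B T r ω y i / 2 ^ ll i := by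
    show f i - toBD (fun i => out M B T r ω y i / 2 ^ ll i) i = _
    rw [toBD_apply hz]
  rw [h1, out_eq, Real.norm_eq_abs]
  have hfi : f i = y i / 2 ^ ll i := by rw [hyf]; field_simp
  have hpos : (0 : ℝ) < 2 ^ ll i := by positivity
  have hge1 : (1 : ℝ) ≤ 2 ^ ll i := one_le_pow₀ (by norm_num)
  by_cases hfound : Found M B T r ω y i
  · rw [if_pos hfound, hfi, sub_self, abs_zero]
    positivity
  · rw [if_neg hfound, zero_div, sub_zero, hfi, abs_div, abs_of_pos hpos]
    rcases Nat.lt_or_ge i M with hi | hi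
    · have h2 : |y i| / 2 ^ ll i ≤ |y i| := div_le_self (abs_nonneg _) hge1
      rcases le_or_gt (|y i|) τ with h3 | h3
      · have : (0 : ℝ) ≤ 1 / 2 ^ T := by positivity
        linarith
      · have h4 : |y i| ≤ Sg := by
          have h5 : (if Found M B T r ω y i then (0 : ℝ) else 1) * |y i| ≤ Sg := by
            apply single_le_sum (f := fun j => (if Found M B T r ω y j then (0 : ℝ) else 1) * |y j|)
            · intro j _
              split_ifs <;> positivity
            · rw [mem_filter, mem_range]; exact ⟨hi, h3⟩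
          rw [if_neg hfound, one_mul] at h5
          exact h5
        have : (0 : ℝ) ≤ 1 / 2 ^ T := by positivity
        linarith
    · have h2 : (2 : ℝ) ^ T ≤ 2 ^ ll i := by
        apply pow_le_pow_right₀ (by norm_num)
        rw [hM] at hi
        unfold ll
        apply Nat.le_log_of_pow_le (by norm_num)
        apply Nat.le_log_of_pow_le (by norm_num)
        exact hi
      have h3 : |y i| / 2 ^ ll i ≤ 1 / 2 ^ T := div_le_div₀ zero_le_one (hy1 i) (by positivity) h2
      linarith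

open Pool.Agent.Helper579.Recovery in
/-- upper bound for the randomized error with linear information -/
lemma eRan_lin_le {B T r : ℕ} (hB : 1 ≤ B) {τ : ℝ} (hτ : 0 < τ) :
    eRan F (lin ℕ) (r * (B * (2 * T + 3))) ≤
      ENNReal.ofReal (1 / 2 ^ T + τ + (8 * (T + 1) / (B * τ)) ^ r) := by
  classical
  set M := R T with hM
  let Ω := Fin r → Fin M → Fin (q B T)
  have : Nonempty (Fin (q B T)) := ⟨⟨0, q_pos hB T⟩⟩
  have : Nonempty Ω := inferInstance
  let _ : MeasurableSpace Ω := ⊤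
  have : MeasurableSingletonClass Ω := ⟨fun _ => trivial⟩
  have hcard : (0 : ℝ) < Fintype.card Ω := by exact_mod_cast Fintype.card_pos
  let μ : Measure Ω := (Fintype.card Ω : ℝ≥0∞)⁻¹ • Measure.count
  have hμ : IsProbabilityMeasure μ := by
    constructor
    show (Fintype.card Ω : ℝ≥0∞)⁻¹ * Measure.count Set.univ = 1
    rw [Measure.count_univ, ENat.card_eq_coe_fintype_card]
    have h1 : (Fintype.card Ω : ℝ≥0∞) ≠ 0 := by
      exact_mod_cast Fintype.card_ne_zero
    exact ENNReal.inv_mul_cancel h1 (ENNReal.natCast_ne_top _)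
  have hmem : (⨆ f ∈ F, ∫⁻ ω, ENNReal.ofReal ‖f - alg M B T r ω f‖ ∂μ)
      ∈ ranErrors F (lin ℕ) (r * (B * (2 * T + 3))) :=
    ⟨Ω, inferInstance, μ, hμ, alg M B T r, fun ω =>
      isAlg_of ((isAlg_out coords_lin M B T r ω).post
        (fun z => toBD (fun i => z i / 2 ^ ll i))),
      fun f _ => measurable_from_top, rfl⟩
  refine (sInf_le hmem).trans ?_
  apply iSup₂_le
  intro f hf
  set y := coords f with hy
  have hysum : ∑ i ∈ range M, |y i| ≤ 1 := by
    have h1 := hf (range M)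
    refine le_trans (le_of_eq ?_) h1
    apply sum_congr rfl
    intro i _
    show |2 ^ ll i * f i| = _
    rw [abs_mul, abs_of_pos (by positivity : (0 : ℝ) < 2 ^ ll i)]
  set S : Ω → ℝ := fun ω => ∑ j ∈ (range M).filter (fun j => τ < |y j|),
        (if Found M B T r ω y j then (0 : ℝ) else 1) * |y j| with hS
  have hS0 : ∀ ω, 0 ≤ S ω := by
    intro ω
    apply sum_nonneg
    intro j _
    split_ifs <;> positivity
  have hsumS : ∑ ω, S ω ≤ (8 * (T + 1) / (B * τ)) ^ r * Fintype.card Ω :=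
    sum_missed_le (le_refl _) hB y hysum hτ
  have hint : ∫⁻ ω, ENNReal.ofReal ‖f - alg M B T r ω f‖ ∂μ
      = (Fintype.card Ω : ℝ≥0∞)⁻¹ * ∑ ω, ENNReal.ofReal ‖f - alg M B T r ω f‖ := by
    show ∫⁻ ω, ENNReal.ofReal ‖f - alg M B T r ω f‖
      ∂((Fintype.card Ω : ℝ≥0∞)⁻¹ • Measure.count) = _
    rw [lintegral_smul_measure, lintegral_count, tsum_fintype, smul_eq_mul]
  rw [hint]
  have hsum : ∑ ω, ENNReal.ofReal ‖f - alg M B T r ω f‖
      ≤ ENNReal.ofReal (Fintype.card Ω * (1 / 2 ^ T + τ + (8 * (T + 1) / (B * τ)) ^ r)) := by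
    rw [← ENNReal.ofReal_sum_of_nonneg (fun ω _ => norm_nonneg _)]
    apply ENNReal.ofReal_le_ofReal
    calc ∑ ω, ‖f - alg M B T r ω f‖ ≤ ∑ ω, (1 / 2 ^ T + τ + S ω) :=
          sum_le_sum fun ω _ => alg_error rfl hf hτ
      _ = Fintype.card Ω * (1 / 2 ^ T + τ) + ∑ ω, S ω := by
          rw [sum_add_distrib, sum_const, card_univ, nsmul_eq_mul]
      _ ≤ _ := by
          rw [mul_add]
          linarith
  calc (Fintype.card Ω : ℝ≥0∞)⁻¹ * ∑ ω, ENNReal.ofReal ‖f - alg M B T r ω f‖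
      ≤ (Fintype.card Ω : ℝ≥0∞)⁻¹ *
        ENNReal.ofReal (Fintype.card Ω * (1 / 2 ^ T + τ + (8 * (T + 1) / (B * τ)) ^ r)) := by
        gcongr
    _ = ENNReal.ofReal (1 / 2 ^ T + τ + (8 * (T + 1) / (B * τ)) ^ r) := by
        rw [ENNReal.ofReal_mul hcard.le, ENNReal.ofReal_natCast, ← mul_assoc,
          ENNReal.inv_mul_cancel (by exact_mod_cast Fintype.card_ne_zero)
            (ENNReal.natCast_ne_top _), one_mul]

open Pool.Agent.Helper579.Recovery in
lemma eRan_lin_level {a : ℕ} (k : ℕ) :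
    eRan F (lin ℕ) (cost a k) ≤
      ENNReal.ofReal (3 * (8 * ((k * a : ℕ) + 1) : ℝ) ^ a / 2 ^ (k * a)) := by
  have h := eRan_lin_le (B := 2 ^ (k * (a + 1))) (T := k * a) (r := a)
    (Nat.one_le_two_pow) (τ := 1 / 2 ^ (k * a)) (by positivity)
  unfold cost
  refine h.trans (ENNReal.ofReal_le_ofReal ?_)
  have h1 : ((2 ^ (k * (a + 1)) : ℕ) : ℝ) * (1 / 2 ^ (k * a)) = 2 ^ k := by
    push_cast
    rw [mul_one_div, div_eq_iff (by positivity), ← pow_add]
    congr 1; ring
  rw [h1]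
  have h2 : (8 * ((k * a : ℕ) + 1) / 2 ^ k : ℝ) ^ a
      = (8 * ((k * a : ℕ) + 1) : ℝ) ^ a / 2 ^ (k * a) := by
    rw [div_pow, ← pow_mul]
  rw [h2]
  have h3 : (1 : ℝ) ≤ (8 * ((k * a : ℕ) + 1) : ℝ) ^ a := by
    apply one_le_pow₀
    have : (0 : ℝ) ≤ (k * a : ℕ) := by positivity
    linarith
  have h4 : (1 : ℝ) / 2 ^ (k * a) ≤ (8 * ((k * a : ℕ) + 1) : ℝ) ^ a / 2 ^ (k * a) :=
    div_le_div_of_nonneg_right h3 (by positivity)
  have h5 : 3 * (8 * ((k * a : ℕ) + 1) : ℝ) ^ a / 2 ^ (k * a)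
      = (8 * ((k * a : ℕ) + 1) : ℝ) ^ a / 2 ^ (k * a) + (8 * ((k * a : ℕ) + 1) : ℝ) ^ a / 2 ^ (k * a)
        + (8 * ((k * a : ℕ) + 1) : ℝ) ^ a / 2 ^ (k * a) := by ring
  rw [h5]
  linarith

lemma eRan_lin_ne_top (n : ℕ) : eRan F (lin ℕ) n ≠ ∞ := by
  have h0 : eRan F (lin ℕ) 0 ≤ 3 := by
    have := eRan_lin_level (a := 0) 0
    simp only [Pool.Agent.Helper579.Recovery.cost, zero_mul] at this
    refine this.trans ?_
    norm_num
  exact ne_of_lt (lt_of_le_of_lt ((eRan_anti (Nat.zero_le n)).trans h0) (by simp))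

/-- the rate for linear information is at least one -/
lemma rate_lin : 1 ≤ rate (fun n => eRan F (lin ℕ) n) := by
  have key : ∀ a : ℕ, 1 ≤ a →
      ENNReal.ofReal (((a : ℝ) - 1) / (a + 1)) ≤ rate (fun n => eRan F (lin ℕ) n) := by
    intro a ha
    have har : (1 : ℝ) ≤ a := by exact_mod_cast ha
    have hα : 0 ≤ ((a : ℝ) - 1) / (a + 1) := div_nonneg (by linarith) (by linarith)
    obtain ⟨C, hC⟩ := Pool.Agent.Helper579.Recovery.rate_bound ha
      (e := fun n => (eRan F (lin ℕ) n).toReal) (fun n => ENNReal.toReal_nonneg)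
      (fun m n h => ENNReal.toReal_mono (eRan_lin_ne_top m) (eRan_anti h))
      (fun k => by
        rw [← ENNReal.toReal_ofReal (r := 3 * (8 * ((k * a : ℕ) + 1) : ℝ) ^ a / 2 ^ (k * a))
          (by positivity)]
        exact ENNReal.toReal_mono ENNReal.ofReal_ne_top (eRan_lin_level k))
    apply le_sSup
    refine ⟨Real.toNNReal (((a : ℝ) - 1) / (a + 1)), rfl, ?_⟩
    rw [Real.coe_toNNReal _ hα]
    refine lt_of_le_of_lt (b := ENNReal.ofReal C) ?_ ENNReal.ofReal_lt_top
    apply iSup₂_le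
    intro n _
    have h1 := hC n
    show (n : ℝ≥0∞) ^ (((a : ℝ) - 1) / (a + 1)) * eRan F (lin ℕ) n ≤ ENNReal.ofReal C
    rw [← ENNReal.ofReal_toReal (eRan_lin_ne_top n), ← ENNReal.ofReal_natCast,
      ENNReal.ofReal_rpow_of_nonneg (by positivity) hα, ← ENNReal.ofReal_mul (by positivity)]
    exact ENNReal.ofReal_le_ofReal h1
  -- limit
  have hlim : Filter.Tendsto (fun a : ℕ => ENNReal.ofReal (((a : ℝ) - 1) / (a + 1)))
      Filter.atTop (nhds (ENNReal.ofReal 1)) := by
    apply ENNReal.tendsto_ofReal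
    have h1 : Filter.Tendsto (fun a : ℕ => 1 - 2 * (1 / ((a : ℝ) + 1))) Filter.atTop (nhds 1) := by
      have := (tendsto_one_div_add_atTop_nhds_zero_nat (𝕜 := ℝ)).const_mul 2
      have h2 := this.const_sub 1
      simpa using h2
    refine h1.congr fun a => ?_
    have : (a : ℝ) + 1 ≠ 0 := by positivity
    field_simp
    ring
  rw [ENNReal.ofReal_one] at hlim
  refine le_of_tendsto hlim ?_
  filter_upwards [Filter.eventually_ge_atTop 1] with a ha using key a ha

/-- **Main result.** There are a set `D` and a bounded convex symmetric class `F ⊆ B(D)` for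
which the rate of randomized algorithms using function values is `0` although the rate of
randomized algorithms using arbitrary linear information is at least `1`. -/
theorem result : ∃ (D : Type) (_ : Nonempty D) (F : Set (BD D)),
    Convex ℝ F ∧ (∀ f ∈ F, -f ∈ F) ∧ (∀ f ∈ F, ‖f‖ ≤ 1) ∧
    rate (fun n => eRan F (std D) n) = 0 ∧ 1 ≤ rate (fun n => eRan F (lin D) n) :=
  ⟨ℕ, inferInstance, F, convex_F, symm_F, fun _ hf => norm_le_one hf, rate_std, rate_lin⟩

end Pool.Agent.Results.MP_fa1f9f_an.LossOne
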